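import Mathlib
import Pool.Agent.H49.WS3

set_option autoImplicit false

namespace Pool.Agent.Results.MP_3c4aa6_nt.Multi

open Set Filter Topology Asymptotics MeasureTheory Pool.Agent.H49.WS

/-- The Weyl sum. -/
noncomputable def W (d : ℕ) (x : EuclideanSpace ℝ (Fin d)) (N : ℕ) : ℂ :=
  ∑ n ∈ Finset.Icc 1 N, Complex.exp
    (2 * Real.pi * Complex.I * ((∑ j : Fin d, x j * (n : ℝ) ^ (j.val + 1) : ℝ) : ℂ))

/-- Points of the unit cube whose growth exponent, in both of its descriptions, equals `α`. -/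
def Om (d : ℕ) (α : ℝ) : Set (EuclideanSpace ℝ (Fin d)) :=
  {x | (∀ j, x j ∈ Ico (0 : ℝ) 1) ∧
    limsup (fun N : ℕ => Real.log ‖W d x N‖ / Real.log N) atTop = α ∧
    sInf {s : ℝ | 0 < s ∧ W d x =O[atTop] fun N : ℕ => (N : ℝ) ^ s} = α}

lemma WS {d : ℕ} (hd : 1 < d) (t : ℝ) : W d (EuclideanSpace.single ⟨1, hd⟩ t) = S t := by
  funext N
  rw [W, S, ← Finset.Ico_add_one_right_eq_Icc, Finset.sum_Ico_eq_sum_range, Nat.add_sub_cancel]
  refine Finset.sum_congr rfl fun n _ => ?_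
  rw [Finset.sum_eq_single ⟨1, hd⟩ (fun j _ h => by simp [h]) (by simp), H49.MD.e]
  congr 1; simp; ring

lemma ex {f : ℕ → ℂ} {α : ℝ} (a0 : 0 < α)
    (h1 : ∀ ε, 0 < ε → ∀ᶠ N : ℕ in atTop, ‖f N‖ ≤ (N : ℝ) ^ (α + ε))
    (h2 : ∀ ε, 0 < ε → ∃ᶠ N : ℕ in atTop, (N : ℝ) ^ (α - ε) ≤ ‖f N‖) :
    limsup (fun N : ℕ => Real.log ‖f N‖ / Real.log N) atTop = α ∧
    sInf {s : ℝ | 0 < s ∧ f =O[atTop] fun N : ℕ => (N : ℝ) ^ s} = α := by
  have u : ∀ ε, 0 < ε → ∀ᶠ N : ℕ in atTop, Real.log ‖f N‖ / Real.log N ≤ α + ε := fun ε e0 => by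
    filter_upwards [h1 ε e0, eventually_gt_atTop 1] with N h N1
    have l := Real.log_pos (show (1 : ℝ) < N by exact_mod_cast N1)
    rw [div_le_iff₀ l]
    rcases (norm_nonneg (f N)).eq_or_lt with b | b
    · rw [← b, Real.log_zero]; positivity
    · exact (Real.log_le_log b h).trans_eq (Real.log_rpow (by positivity) _)
  have v : ∀ ε, 0 < ε → ∃ᶠ N : ℕ in atTop, α - ε ≤ Real.log ‖f N‖ / Real.log N := fun ε e0 =>
    ((h2 ε e0).and_eventually (eventually_gt_atTop 1)).mono fun N ⟨h, N1⟩ => by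
      rw [le_div_iff₀ (Real.log_pos (by exact_mod_cast N1)), ← Real.log_rpow (by positivity)]
      exact Real.log_le_log (by positivity) h
  have w : ∀ s, α < s → 0 < s ∧ f =O[atTop] fun N : ℕ => (N : ℝ) ^ s := fun s hs =>
    ⟨a0.trans hs, IsBigO.of_bound' ((h1 (s - α) (by linarith)).mono fun N h => by
      rw [add_sub_cancel] at h; exact h.trans (le_abs_self _))⟩
  refine ⟨le_antisymm (le_of_forall_pos_le_add fun ε e0 => limsup_le_of_le
    (IsCoboundedUnder.of_frequently_ge (v 1 one_pos)) (u ε e0)) (le_of_forall_sub_le fun ε e0 =>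
    le_limsup_of_frequently_le (v ε e0) ⟨_, u 1 one_pos⟩), csInf_eq_of_forall_ge_of_forall_gt_exists_lt
    ⟨_, w _ (lt_add_one α)⟩ (fun s ⟨_, hs⟩ => not_lt.1 fun b => ?_) fun s hs => ?_⟩
  · obtain ⟨c, hc⟩ := hs.bound
    have e0 : 0 < (α - s) / 2 := by linarith
    obtain ⟨N, ⟨g1, g2⟩, g3, g4⟩ := (((h2 _ e0).and_eventually hc).and_eventually
      ((((tendsto_rpow_atTop e0).comp tendsto_natCast_atTop_atTop).eventually_gt_atTop c).and
        (eventually_gt_atTop 0))).exists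
    rw [show α - (α - s) / 2 = (α - s) / 2 + s by ring, Real.rpow_add (by positivity)] at g1
    rw [Real.norm_of_nonneg (by positivity)] at g2
    exact absurd (g1.trans g2) (not_le.2 (mul_lt_mul_of_pos_right g3 (by positivity)))
  · exact ⟨(α + s) / 2, w _ (by linarith), by linarith⟩

lemma main {d : ℕ} (hd : 2 ≤ d) {α : ℝ} (h : α ∈ Ioo (1 / 2 : ℝ) 1) : 0 < dimH (Om d α) := by
  have a1 : 0 < 1 - α := sub_pos.2 h.2
  set s := (2 * α - 1) / (1 - α) with hs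
  have s0 : 0 < s := div_pos (by linarith [h.1]) a1
  have s1 : (1 - α) * (1 + s) = α := by rw [hs]; field_simp; ring
  obtain ⟨b, hb⟩ := pow_unbounded_of_one_lt ((20 : ℝ) ^ (1 + s)) one_lt_two
  have b0 : b ≠ 0 := by
    rintro rfl
    linarith [D20 s0 hb]
  refine (dim_pos (fun ω => EuclideanSpace.single (⟨1, hd⟩ : Fin d) (T s (2 ^ b) ω)) (b * 2)
    (by omega) fun ω ω' n h1 h2 => ?_).trans_le (dimH_mono ?_)
  · rw [EuclideanSpace.dist_single_same, Real.dist_eq, show (((1 : ℝ) / 2) ^ (n + 2)) ^ (b * 2) =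
      1 / ((2 ^ b) ^ (n + 2)) ^ 2 by simp only [one_div, inv_pow, ← pow_mul]; congr 2; ring]
    rcases (by omega : ω n = 0 ∧ ω' n = 1 ∨ ω' n = 0 ∧ ω n = 1) with c | c
    · exact (sep s0 hb h1 c.1 c.2).trans (le_abs_self _)
    · exact (sep s0 hb (fun k hk => (h1 k hk).symm) c.1 c.2).trans
        ((le_abs_self _).trans_eq (abs_sub_comm _ _))
  · rintro _ ⟨ω, rfl⟩
    refine ⟨fun j => ?_, ?_⟩
    · have := tb (2 ^ b) ω s0 0
      simp only [p, q, zero_add] at this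
      by_cases c : j = ⟨1, hd⟩
      · subst c
        rw [PiLp.single_apply, if_pos rfl]
        constructor <;> norm_num at this <;> linarith [this.1, this.2]
      · simp [c]
    · rw [WS]
      exact ex (by linarith [h.1]) (fun ε => upp' ω h.2 s0 s1) fun ε => lowr' ω h.2 s0 s1 hb

theorem result (d : ℕ) (hd : 2 ≤ d) : ∀ α ∈ Ioo (1 / 2 : ℝ) 1, 0 < dimH (Om d α) :=
  fun _ => main hd

end Pool.Agent.Results.MP_3c4aa6_nt.Multi
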